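import Pool.Agent.N798.S2.Stm

set_option autoImplicit false

/-!
Project S2 (helper798), leaf VR, by helper233: a slowly varying phase under a sum.
-/

namespace Pool.Agent.N233.S2

open Finset
open Pool.Agent.H376R2.MR (er)
open Pool.Agent.N798.S2

theorem er_norm (x : ℝ) : ‖er 1 x‖ = 1 := by
  unfold er
  exact Complex.norm_exp_ofReal_mul_I _

theorem er_lip (x y : ℝ) : ‖er 1 x - er 1 y‖ ≤ |x - y| := by
  have h : er 1 x - er 1 y = er 1 y * (Complex.exp (Complex.I * ((x - y : ℝ) : ℂ)) - 1) := by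
    unfold er
    rw [mul_sub, ← Complex.exp_add, mul_one]
    congr 2
    push_cast
    ring
  rw [h, norm_mul, er_norm, one_mul]
  have := Real.norm_exp_I_mul_ofReal_sub_one_le (x := x - y)
  simpa using this

theorem abel (a : ℕ → ℂ) (E : ℕ → ℂ) (N : ℕ) : ∀ k : ℕ,
    ∑ n ∈ Ioc N (N + k), a n * E n = (∑ n ∈ Ioc N (N + k), a n) * E (N + k)
      - ∑ i ∈ range k, (∑ n ∈ Ioc N (N + i), a n) * (E (N + i + 1) - E (N + i)) := by
  intro k
  induction k with
  | zero => simp
  | succ k ih =>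
    have h1 : ∀ f : ℕ → ℂ, ∑ n ∈ Ioc N (N + (k + 1)), f n = ∑ n ∈ Ioc N (N + k), f n + f (N + k + 1) := by
      intro f
      rw [← add_assoc, Finset.sum_Ioc_succ_top (by omega)]
    rw [h1, h1, ih, Finset.sum_range_succ]
    have : N + (k + 1) = N + k + 1 := by omega
    rw [this]
    ring

theorem vr : S_VR := by
  intro a ψ N N' B V hN hNN' hN2 hV hψ hB
  obtain ⟨k, rfl⟩ := Nat.exists_eq_add_of_le hNN'
  have hk : k ≤ N := by omega
  have hB0 : 0 ≤ B := le_trans (norm_nonneg _) (hB N le_rfl (by omega))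
  have hNr : (0:ℝ) < N := by exact_mod_cast hN
  rw [abel a (fun n => er 1 (ψ n)) N k]
  refine (norm_sub_le _ _).trans ?_
  have h1 : ‖(∑ n ∈ Ioc N (N + k), a n) * er 1 (ψ (N + k))‖ ≤ B := by
    rw [norm_mul, er_norm, mul_one]
    exact hB _ (by omega) le_rfl
  have h2 : ‖∑ i ∈ range k, (∑ n ∈ Ioc N (N + i), a n) * (er 1 (ψ (N + i + 1)) - er 1 (ψ (N + i)))‖ ≤
      ∑ i ∈ range k, B * (V / N) := by
    refine norm_sum_le_of_le _ (fun i hi => ?_)
    have hi' := Finset.mem_range.mp hi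
    rw [norm_mul]
    refine mul_le_mul (hB _ (by omega) (by omega)) ?_ (norm_nonneg _) hB0
    exact (er_lip _ _).trans (hψ _ (by omega) (by omega))
  have h3 : ∑ i ∈ range k, B * (V / N) ≤ V * B := by
    rw [Finset.sum_const, Finset.card_range, nsmul_eq_mul]
    have : (k:ℝ) ≤ N := by exact_mod_cast hk
    have h4 : (k:ℝ) * (B * (V / N)) = (k / N) * (V * B) := by ring
    rw [h4]
    have h5 : (k:ℝ) / N ≤ 1 := by rw [div_le_one hNr]; exact this
    calc (k:ℝ) / N * (V * B) ≤ 1 * (V * B) := mul_le_mul_of_nonneg_right h5 (mul_nonneg hV hB0)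
      _ = V * B := one_mul _
  have : (1 + V) * B = B + V * B := by ring
  rw [this]
  exact add_le_add h1 (h2.trans h3)

end Pool.Agent.N233.S2
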